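import Pool.Agent.W188.QS.Stm
import Pool.Agent.H345R2.Chi

/-!
# The trivial bound and integrability
-/

set_option autoImplicit false

open Complex MeasureTheory Set Filter Topology

namespace Pool.Agent.W253.QS

open Pool.Agent.W188.QS

theorem fp_re (t : ℝ) : (fp t).re = 4 := by simp [fp]

theorem fp_im (t : ℝ) : (fp t).im = t := by simp [fp]

theorem continuous_fp : Continuous fp := by
  unfold fp
  fun_prop

theorem continuous_XX : Continuous fun t : ℝ => XX (fp t) := by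
  have hpi : (2 * (Real.pi : ℂ)) ≠ 0 := by
    have : (Real.pi : ℂ) ≠ 0 := by exact_mod_cast Real.pi_ne_zero
    simp [this]
  have hG : Continuous fun t : ℝ => Complex.Gamma (fp t) := by
    rw [continuous_iff_continuousAt]
    intro t
    have h1 : ContinuousAt Complex.Gamma (fp t) := by
      refine (Complex.differentiableAt_Gamma (fp t) fun m hm => ?_).continuousAt
      have h2 := congrArg Complex.re hm
      rw [fp_re] at h2
      simp at h2
      have : (0 : ℝ) ≤ m := Nat.cast_nonneg m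
      linarith
    exact ContinuousAt.comp h1 continuous_fp.continuousAt
  unfold XX
  have h1 : Continuous fun t : ℝ => (2 * (Real.pi : ℂ)) ^ (-fp t) :=
    continuous_fp.neg.const_cpow (Or.inl hpi)
  have h2 : Continuous fun t : ℝ => Complex.cos (Real.pi * fp t / 2) :=
    Complex.continuous_cos.comp ((continuous_const.mul continuous_fp).div_const 2)
  exact ((continuous_const.mul h1).mul hG).mul h2

theorem XX_bound : ∃ C : ℝ, 0 < C ∧ ∀ t : ℝ, ‖XX (fp t)‖ ≤ C * (1 + |t|) ^ 4 := by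
  obtain ⟨K, hK, hX⟩ := H345.Chi.XX_size
  obtain ⟨M, hM⟩ := (isCompact_Icc (a := (-1 : ℝ)) (b := 1)).exists_bound_of_continuousOn
    continuous_XX.continuousOn
  have hpos : ∀ t : ℝ, 1 ≤ t → ‖XX (fp t)‖ ≤ Real.exp K * (1 + |t|) ^ 4 := by
    intro t ht
    have h1 := (hX (fp t) (by rw [fp_re]; norm_num) (by rw [fp_re]) (by rw [fp_im]; exact ht)).2
    refine le_trans h1 (mul_le_mul_of_nonneg_left ?_ (Real.exp_pos K).le)
    rw [fp_re, fp_im]
    calc t ^ ((4 : ℝ) - 1 / 2) ≤ t ^ (4 : ℝ) :=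
          Real.rpow_le_rpow_of_exponent_le ht (by norm_num)
      _ = t ^ 4 := by
          rw [show (4 : ℝ) = ((4 : ℕ) : ℝ) by norm_num, Real.rpow_natCast]
      _ ≤ (1 + |t|) ^ 4 := by
          refine pow_le_pow_left₀ (by linarith) ?_ 4
          have := le_abs_self t
          linarith
  refine ⟨max (Real.exp K) (max M 1), lt_max_of_lt_left (Real.exp_pos K), fun t => ?_⟩
  have hnn : (0 : ℝ) ≤ (1 + |t|) ^ 4 := by positivity
  rcases le_total 1 t with ht | ht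
  · exact (hpos t ht).trans (mul_le_mul_of_nonneg_right (le_max_left _ _) hnn)
  · rcases le_total t (-1) with ht' | ht'
    · have h1 : fp t = (starRingEnd ℂ) (fp (-t)) := by
        apply Complex.ext
        · simp [fp]
        · simp [fp]
      have h2 : ‖XX (fp t)‖ = ‖XX (fp (-t))‖ := by
        rw [h1]
        have h3 : XX ((starRingEnd ℂ) (fp (-t))) = (starRingEnd ℂ) (XX (fp (-t))) :=
          H345.Chi.XX_conj (fp (-t))
        rw [h3, Complex.norm_conj]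
      rw [h2]
      have h3 := hpos (-t) (by linarith)
      rw [abs_neg] at h3
      exact h3.trans (mul_le_mul_of_nonneg_right (le_max_left _ _) hnn)
    · have h1 := hM t ⟨ht', ht⟩
      have h2 : (1 : ℝ) ≤ (1 + |t|) ^ 4 := one_le_pow₀ (by linarith [abs_nonneg t])
      have h3 : M ≤ max (Real.exp K) (max M 1) := (le_max_left _ _).trans (le_max_right _ _)
      have h4 : 0 ≤ max (Real.exp K) (max M 1) := (Real.exp_pos K).le.trans (le_max_left _ _)
      calc ‖XX (fp t)‖ ≤ M := h1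
        _ ≤ max (Real.exp K) (max M 1) * 1 := by rw [mul_one]; exact h3
        _ ≤ _ := mul_le_mul_of_nonneg_left h2 h4

theorem norm_GG (T Δ t : ℝ) :
    ‖GG T Δ (fp t)‖ = Real.exp ((49 / 4 - (t - T) ^ 2) / Δ ^ 2) := by
  unfold GG
  rw [Complex.norm_exp]
  congr 1
  have h1 : ((fp t - cp T) / (Δ : ℂ)) ^ 2 =
      (((49 / 4 - (t - T) ^ 2) / Δ ^ 2 : ℝ) : ℂ) + ((7 * (t - T) / Δ ^ 2 : ℝ) : ℂ) * I := by
    unfold fp cp
    push_cast
    rw [div_pow]
    have hI : I ^ 2 = -1 := Complex.I_sq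
    have h2 : (4 + (t : ℂ) * I - (1 / 2 + (T : ℂ) * I)) ^ 2 =
        (49 / 4 - ((t : ℂ) - T) ^ 2) + 7 * ((t : ℂ) - T) * I := by
      linear_combination ((t : ℂ) - T) ^ 2 * hI
    rw [h2]
    ring
  rw [h1]
  simp only [add_re, mul_re, ofReal_re, I_re, mul_zero, ofReal_im, I_im, mul_one, sub_self,
    add_zero]

theorem norm_GG_le {T Δ : ℝ} (hΔ : 1 ≤ Δ) (t : ℝ) :
    ‖GG T Δ (fp t)‖ ≤ Real.exp (49 / 4) * Real.exp (-((t - T) / Δ) ^ 2) := by
  rw [norm_GG, ← Real.exp_add]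
  refine Real.exp_le_exp.2 ?_
  have h1 : (49 / 4 - (t - T) ^ 2) / Δ ^ 2 = 49 / 4 / Δ ^ 2 + -((t - T) / Δ) ^ 2 := by
    rw [div_pow]
    ring
  rw [h1]
  have h2 : 49 / 4 / Δ ^ 2 ≤ 49 / 4 := div_le_self (by norm_num) (one_le_pow₀ hΔ)
  linarith

/-- the dominating function -/
noncomputable def F (v : ℝ) : ℝ := (2 + |v|) ^ 4 * Real.exp (-v ^ 2)

theorem F_nonneg (v : ℝ) : 0 ≤ F v := by
  unfold F
  positivity

theorem integrable_F : Integrable F := by
  have h1 : Integrable fun v : ℝ => Real.exp (-(1 : ℝ) * v ^ 2) := integrable_exp_neg_mul_sq one_pos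
  have h2 : Integrable fun v : ℝ => v ^ (4 : ℝ) * Real.exp (-(1 : ℝ) * v ^ 2) :=
    integrable_rpow_mul_exp_neg_mul_sq one_pos (by norm_num)
  have h3 := (h1.const_mul 128).add (h2.const_mul 8)
  refine h3.mono' (by unfold F; fun_prop) (Filter.Eventually.of_forall fun v => ?_)
  rw [Real.norm_of_nonneg (F_nonneg v)]
  show F v ≤ 128 * Real.exp (-1 * v ^ 2) + 8 * (v ^ (4 : ℝ) * Real.exp (-1 * v ^ 2))
  have h4 : v ^ (4 : ℝ) = v ^ 4 := by
    rw [show (4 : ℝ) = ((4 : ℕ) : ℝ) by norm_num, Real.rpow_natCast]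
  have h5 : -1 * v ^ 2 = -v ^ 2 := by ring
  rw [h4, h5]
  unfold F
  have h6 : (2 + |v|) ^ 4 ≤ 128 + 8 * v ^ 4 := by
    have h7 : |v| ^ 4 = v ^ 4 := by
      rw [show 4 = 2 * 2 by norm_num, pow_mul, sq_abs, ← pow_mul]
    rw [← h7]
    have h8 : (2 + |v|) ^ 2 ≤ 2 * (4 + |v| ^ 2) := by nlinarith [sq_nonneg (2 - |v|)]
    calc (2 + |v|) ^ 4 = ((2 + |v|) ^ 2) ^ 2 := by ring
      _ ≤ (2 * (4 + |v| ^ 2)) ^ 2 := pow_le_pow_left₀ (by positivity) h8 2
      _ ≤ 128 + 8 * |v| ^ 4 := by nlinarith [sq_nonneg (4 - |v| ^ 2)]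
  have h9 := mul_le_mul_of_nonneg_right h6 (Real.exp_pos (-v ^ 2)).le
  linarith

theorem pow_le_F {T Δ : ℝ} (hΔ : 1 ≤ Δ) (hT : Δ ≤ T) (t : ℝ) :
    (1 + |t|) ^ 4 * Real.exp (-((t - T) / Δ) ^ 2) ≤ T ^ 4 * F ((t - T) / Δ) := by
  unfold F
  rw [← mul_assoc]
  refine mul_le_mul_of_nonneg_right ?_ (Real.exp_pos _).le
  rw [← mul_pow]
  refine pow_le_pow_left₀ (by positivity) ?_ 4
  have hΔ0 : 0 < Δ := by linarith
  have h1 : |t| ≤ T + |t - T| := by
    have h2 := abs_add_le (t - T) T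
    rw [sub_add_cancel, abs_of_pos (show 0 < T by linarith)] at h2
    linarith
  have h2 : |t - T| ≤ T * |(t - T) / Δ| := by
    rw [abs_div, abs_of_pos hΔ0]
    have h3 : |t - T| = Δ * (|t - T| / Δ) := by field_simp
    calc |t - T| = Δ * (|t - T| / Δ) := h3
      _ ≤ T * (|t - T| / Δ) := mul_le_mul_of_nonneg_right hT (by positivity)
  nlinarith

theorem qs_i3 : Pool.Agent.W188.QS.StI3 := by
  obtain ⟨C, hC, hX⟩ := XX_bound
  have hI0 : 0 ≤ ∫ v, F v := integral_nonneg F_nonneg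
  refine ⟨max C (C * Real.exp (49 / 4) * ∫ v, F v), fun t => (hX t).trans
    (mul_le_mul_of_nonneg_right (le_max_left _ _) (by positivity)), ?_⟩
  intro T Δ hΔ hT n hn
  have hΔ0 : 0 < Δ := by linarith
  have hT0 : 0 < T := by linarith
  have hn0 : (n : ℂ) ≠ 0 := by
    exact_mod_cast (by omega : n ≠ 0)
  have hnr : (0 : ℝ) < n := by exact_mod_cast (by omega : 0 < n)
  have hcont : Continuous fun t : ℝ => (n : ℂ) ^ (-fp t) * XX (fp t) * GG T Δ (fp t) := by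
    refine ((continuous_fp.neg.const_cpow (Or.inl hn0)).mul continuous_XX).mul ?_
    unfold GG cp
    exact Complex.continuous_exp.comp (((continuous_fp.sub continuous_const).div_const _).pow 2)
  have hdom : Integrable fun t : ℝ =>
      (n : ℝ) ^ (-(4 : ℝ)) * (C * Real.exp (49 / 4) * T ^ 4) * F ((t - T) / Δ) := by
    have h1 : Integrable fun t : ℝ => F (t / Δ) := integrable_F.comp_div hΔ0.ne'
    have h2 : Integrable fun t : ℝ => F ((t - T) / Δ) := h1.comp_sub_right T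
    exact h2.const_mul _
  have hbd : ∀ t : ℝ, ‖(n : ℂ) ^ (-fp t) * XX (fp t) * GG T Δ (fp t)‖ ≤
      (n : ℝ) ^ (-(4 : ℝ)) * (C * Real.exp (49 / 4) * T ^ 4) * F ((t - T) / Δ) := by
    intro t
    have h1 : ‖(n : ℂ) ^ (-fp t)‖ = (n : ℝ) ^ (-(4 : ℝ)) := by
      rw [Complex.norm_natCast_cpow_of_pos (by omega), Complex.neg_re, fp_re]
    rw [norm_mul, norm_mul, h1]
    have h2 : ‖XX (fp t)‖ * ‖GG T Δ (fp t)‖ ≤
        (C * (1 + |t|) ^ 4) * (Real.exp (49 / 4) * Real.exp (-((t - T) / Δ) ^ 2)) :=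
      mul_le_mul (hX t) (norm_GG_le hΔ t) (norm_nonneg _) (by positivity)
    have h3 := pow_le_F hΔ hT t
    have h4 : C * Real.exp (49 / 4) * ((1 + |t|) ^ 4 * Real.exp (-((t - T) / Δ) ^ 2)) ≤
        C * Real.exp (49 / 4) * (T ^ 4 * F ((t - T) / Δ)) :=
      mul_le_mul_of_nonneg_left h3 (by positivity)
    have h5 : ‖XX (fp t)‖ * ‖GG T Δ (fp t)‖ ≤
        C * Real.exp (49 / 4) * T ^ 4 * F ((t - T) / Δ) := by linarith
    calc (n : ℝ) ^ (-(4 : ℝ)) * ‖XX (fp t)‖ * ‖GG T Δ (fp t)‖ =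
          (n : ℝ) ^ (-(4 : ℝ)) * (‖XX (fp t)‖ * ‖GG T Δ (fp t)‖) := by ring
      _ ≤ (n : ℝ) ^ (-(4 : ℝ)) * (C * Real.exp (49 / 4) * T ^ 4 * F ((t - T) / Δ)) :=
          mul_le_mul_of_nonneg_left h5 (by positivity)
      _ = _ := by ring
  refine ⟨hdom.mono' hcont.aestronglyMeasurable (Filter.Eventually.of_forall hbd), ?_⟩
  unfold In
  refine (norm_integral_le_of_norm_le hdom (Filter.Eventually.of_forall hbd)).trans ?_
  rw [integral_const_mul]
  have h1 : ∫ t : ℝ, F ((t - T) / Δ) = Δ * ∫ v, F v := by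
    rw [integral_sub_right_eq_self (fun t : ℝ => F (t / Δ)) T,
      Measure.integral_comp_div, abs_of_pos hΔ0, smul_eq_mul]
  rw [h1]
  have hn4 : (0 : ℝ) ≤ (n : ℝ) ^ (-(4 : ℝ)) := by positivity
  calc (n : ℝ) ^ (-(4 : ℝ)) * (C * Real.exp (49 / 4) * T ^ 4) * (Δ * ∫ v, F v) =
        (C * Real.exp (49 / 4) * ∫ v, F v) * (n : ℝ) ^ (-(4 : ℝ)) * (T ^ 4 * Δ) := by ring
    _ ≤ (C * Real.exp (49 / 4) * ∫ v, F v) * (n : ℝ) ^ (-(4 : ℝ)) * (T ^ 4 * T) :=
        mul_le_mul_of_nonneg_left (mul_le_mul_of_nonneg_left hT (by positivity)) (by positivity)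
    _ ≤ max C (C * Real.exp (49 / 4) * ∫ v, F v) * (n : ℝ) ^ (-(4 : ℝ)) * (T ^ 4 * T) :=
        mul_le_mul_of_nonneg_right (mul_le_mul_of_nonneg_right (le_max_right _ _) hn4)
          (by positivity)
    _ = max C (C * Real.exp (49 / 4) * ∫ v, F v) * (n : ℝ) ^ (-(4 : ℝ)) * T ^ 5 := by ring

end Pool.Agent.W253.QS
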